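import Pool.Agent.LSC.Fin

set_option autoImplicit false

namespace Pool.Agent.Helper5.Kept.LocalSearch

open Pool.Agent.Helper82.CKM

open Classical in
/-- `s` is a local optimum: it opens at most `K` facilities, no solution that opens only
facilities of `s` is cheaper (its assignment is optimal), and no solution with at most `K`
facilities that opens at most `p` facilities outside of `s` is cheaper by more than the factor
`1 - η`. -/
def LocOpt {I : Inst} (K p : ℕ) (η : ℝ) (s : Sol I) : Prop :=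
  s.size ≤ K ∧ (∀ t : Sol I, t.S ⊆ s.S → s.cost ≤ t.cost) ∧
    ∀ t : Sol I, t.size ≤ K → (t.S \ s.S).card ≤ p → (1 - η) * s.cost ≤ t.cost

/-- All distances are differences of positions on the real line. -/
def OnLine (I : Inst) : Prop := ∃ pos : I.F ⊕ I.D → ℝ, ∀ a b, I.d a b = |pos a - pos b|

theorem LocOpt.to {I : Inst} {K p : ℕ} {η : ℝ} {s : Sol I} (h : LocOpt K p η s) :
    Pool.Agent.LSC.LocOpt K p η s := ⟨h.1, h.2.1, h.2.2⟩

theorem LocOpt.of {I : Inst} {K p : ℕ} {η : ℝ} {s : Sol I}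
    (h : Pool.Agent.LSC.LocOpt K p η s) : LocOpt K p η s := ⟨h.1, h.2, h.3⟩

/-- Local search for capacitated `k`-median with exact capacities, every facility opened at most
once. `LocOpt K p η s`: the solution `s` opens at most `K` facilities, its assignment is optimal
for them, and `(1 - η) cost s ≤ cost t` for all solutions `t` with at most `K` facilities, at most
`p` of them outside of `s`.

1. Uniform capacities: local optima for `K = k + r` facilities and swaps of `p` facilities cost at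
   most `(2 k - p + r) / (p + r)` times the optimum for `k` facilities (`η = 0`).
2. In particular (`p = 1`, `K = ⌊(1 + δ) k⌋`): the factor `1 + 2 / δ`.
3. Uniform capacities: for all solutions `s`, `o` there is a solution that opens at most `o.size` of
   the facilities of `s` and costs at most `s.cost + 2 * o.cost`. Hence the facilities of a
   local optimum for `⌊(1 + δ) k⌋` facilities contain a solution with `k` facilities of cost at most
   `(3 + 2 / δ)` times the optimum for `k` facilities.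
4. On the line, all capacities `2`: for `k = n + r + 2` there are `p`-swap optimal solutions with
   `k + r` facilities and cost `2 n` although `k` facilities suffice for the cost `2 p (r + 1)`.
5. On the line, all capacities `2 (k - 1)` or `2 (k + r)`: if `(p - 1) (r + 1) ≤ k - 2` there are
   `p`-swap optimal solutions with `k + r` facilities that cost more than `ρ` times a solution with
   `k` facilities, for every `ρ`. -/
theorem result :
    (∀ (I : Inst) (u k r p : ℕ) (η : ℝ) (s o : Sol I), (∀ i, I.U i = u) → 0 ≤ η → 1 ≤ p →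
      p ≤ k → LocOpt (k + r) p η s → o.size ≤ k →
      (1 - η * k / p) * (p + r) * s.cost ≤ (2 * k - p + r) * o.cost) ∧
    (∀ (I : Inst) (u k : ℕ) (δ η : ℝ) (s o : Sol I), (∀ i, I.U i = u) → 0 < δ → 0 ≤ η → 1 ≤ k →
      LocOpt ⌊(1 + δ) * k⌋₊ 1 η s → o.size ≤ k →
      (1 - η * k) * s.cost ≤ (1 + 2 / δ) * o.cost) ∧
    (∀ (I : Inst) (u : ℕ) (s o : Sol I), (∀ i, I.U i = u) →
      ∃ t : Sol I, t.S ⊆ s.S ∧ t.size ≤ o.size ∧ t.cost ≤ s.cost + 2 * o.cost) ∧
    (∀ (I : Inst) (u k : ℕ) (δ : ℝ) (s o : Sol I), (∀ i, I.U i = u) → 0 < δ → 1 ≤ k →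
      LocOpt ⌊(1 + δ) * k⌋₊ 1 0 s → o.size ≤ k →
      ∃ t : Sol I, t.S ⊆ s.S ∧ t.size ≤ k ∧ t.cost ≤ (3 + 2 / δ) * o.cost) ∧
    (∀ n p r : ℕ, ∃ I : Inst, OnLine I ∧ (∀ i, I.U i = 2) ∧ ∃ s o : Sol I,
      s.size = n + 2 * r + 2 ∧ o.size = n + r + 2 ∧ LocOpt (n + 2 * r + 2) p 0 s ∧
      s.cost = 2 * n ∧ o.cost = 2 * p * (r + 1)) ∧
    (∀ (k r p : ℕ) (ρ : ℝ), 2 ≤ k → (p - 1) * (r + 1) ≤ k - 2 → ∃ I : Inst, OnLine I ∧
      (∀ i, I.U i = 2 * (k - 1) ∨ I.U i = 2 * (k + r)) ∧ ∃ s o : Sol I,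
      s.size = k + r ∧ o.size = k ∧ LocOpt (k + r) p 0 s ∧ 0 < o.cost ∧
      ρ * o.cost < s.cost) := by
  refine ⟨?_, ?_, ?_, ?_, ?_, ?_⟩
  · intro I u k r p η s o hU hη hp hpk hs ho
    exact Pool.Agent.LSC.upper hU hη hp hpk s o hs.to ho
  · intro I u k δ η s o hU hδ hη hk hs ho
    exact Pool.Agent.LSC.single hU hδ hη hk s o hs.to ho
  · intro I u s o hU
    exact Pool.Agent.LSC.restrict hU s o
  · intro I u k δ s o hU hδ hk hs ho
    obtain ⟨t, h1, h2, h3⟩ := Pool.Agent.LSC.restrict hU s o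
    refine ⟨t, h1, h2.trans ho, ?_⟩
    have h4 := Pool.Agent.LSC.single hU hδ le_rfl hk s o hs.to ho
    rw [zero_mul, sub_zero, one_mul] at h4
    linarith
  · intro n p r
    obtain ⟨I, h1, h2, s, o, h3, h4, h5, h6⟩ := Pool.Agent.LSC.path_lower n p r
    exact ⟨I, h1, h2, s, o, h3, h4, LocOpt.of h5, h6⟩
  · intro k r p ρ hk h
    obtain ⟨I, h1, h2, s, o, h3, h4, h5, h6⟩ := Pool.Agent.LSC.knap_lower k r p hk h ρ
    exact ⟨I, h1, h2, s, o, h3, h4, LocOpt.of h5, h6⟩

end Pool.Agent.Helper5.Kept.LocalSearch
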