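import Pool.Agent.Helper5.MoserMain

/-!
# Moser's function `f(n)` and the sphere packing density

`moser n` is the largest number of points of the unit cube `[0,1]^n` at mutual distances at least
one and `Delta n` is the sphere packing density of `ℝ^n`.  We show that

`log f(n) = (n/2) log n - (n/2) log (π e / 2) + log Δ_n + O(n^(2/3) (log n)^(1/3))`.
-/

open Real

namespace Pool.Agent.Helper5.Kept.PackingDensity

open Pool.Agent.Helper5.Moser

theorem result :
    (∀ n : ℕ, IsGreatest (cubeSizes n) (moser n) ∧ 0 < Delta n) ∧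
    ∀ n : ℕ, 2 ≤ n →
      -Real.log n ≤ Real.log (moser n) -
          ((n : ℝ) / 2 * Real.log n - (n : ℝ) / 2 * Real.log (π * Real.exp 1 / 2)
            + Real.log (Delta n)) ∧
      Real.log (moser n) -
          ((n : ℝ) / 2 * Real.log n - (n : ℝ) / 2 * Real.log (π * Real.exp 1 / 2)
            + Real.log (Delta n)) ≤
        10 * ((n : ℝ) ^ (2 / 3 : ℝ) * Real.log n ^ (1 / 3 : ℝ)) := by
  refine ⟨fun n => ⟨isGreatest_moser n, Delta_pos n⟩, fun n hn => ?_⟩
  have h1 := log_Delta_le n
  have h4 := log_Gamma_ge n hn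
  have h5 := log_v n (by omega)
  have h7 : log (2 * exp 1) = log 2 + 1 := by
    rw [Real.log_mul (by norm_num) (exp_pos _).ne', Real.log_exp]
  have h8 : log (π * exp 1 / 2) = log π + 1 - log 2 := by
    rw [Real.log_div (by positivity) (by norm_num), Real.log_mul Real.pi_pos.ne' (exp_pos _).ne',
      Real.log_exp]
  have hm := (abs_le.1 (main n hn)).2
  refine ⟨?_, hm⟩
  rw [h7] at h4
  rw [h8]
  rw [h5] at h1
  linarith

end Pool.Agent.Helper5.Kept.PackingDensity
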