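import Pool.Agent.Helper5.SX.General

/-!
# Sparse sets in NEXP: a relativised world with a positive answer, and sharp census thresholds

Let `h` be nondecreasing with `h n ≥ n`, let `g n ≤ 2 ^ n`, and suppose that for each `k` there
are infinitely many `n` with `2 ^ α n * h (n ^ k + k) ^ k ≤ g n`.  Then there is an oracle `O`
relative to which every set of `NEXP^O` with census at most `h (n ^ k + k) ^ k` for some `k` is
in `EXP^O`, while some set `T` of `NE^O` with census at most `g` has its complement outside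
`NEXP^O`, even with advice of length `α n`.

For `h n = n` the condition on the census is sparseness, and (with `α = 0`) `g` can be any
function with `g n ≤ 2 ^ n` that is not bounded by a polynomial: relative to `O` every sparse
set of `NEXP` has its complement in `NEXP`, but this does not extend to census `g`.
-/

namespace Pool.Agent.Helper5.Kept.SparseThreshold

open Filter Pool.Agent.Helper5.SX

theorem result (h g α : ℕ → ℕ) (hh : Monotone h) (hh' : ∀ n, n ≤ h n) (hg : ∀ n, g n ≤ 2 ^ n)
    (hyp : ∀ k : ℕ, ∃ᶠ n in atTop, 2 ^ α n * h (n ^ k + k) ^ k ≤ g n) :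
    ∃ O : Set Str,
      (∀ A ∈ NEXP O, CensusBd h A → A ∈ EXP O) ∧
      (∀ A ∈ NEXP O, Sparse A → A ∈ EXP O) ∧
      ∃ T ∈ NE O, (∀ n, census T n ≤ g n) ∧ Tᶜ ∉ NEXP O ∧ Tᶜ ∉ NEXPAdv O α := by
  obtain ⟨O, h1, T, h2, h3, h4⟩ := hierarchy h g α hh hh' hg hyp
  exact ⟨O, h1, fun A hA hs => h1 A hA (hs.censusBd hh'), T, h2, h3,
    fun h5 => h4 (NEXPAdv_mono O (fun _ => Nat.zero_le _) (NEXP_subset_adv O h5)), h4⟩

end Pool.Agent.Helper5.Kept.SparseThreshold
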